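import Pool.Agent.TH852.SP.Stmts

set_option autoImplicit false

namespace Pool.Agent.TH283.SP

open MvPolynomial Pool.Agent.W607 Pool.Agent.TH852.SP

theorem fg_homog (t : ℕ) : (homogeneousSubmodule (Fin (3 + 1)) ℂ t).FG := by
  rw [← homogeneousSubmodule_one_pow]
  apply Submodule.FG.pow
  rw [homogeneousSubmodule_one_eq_span_X]
  exact Submodule.fg_span (Set.finite_range _)

theorem JJ_mul {F G f : R4} {w : Fin (3 + 1) → ℂ} {m k : ℕ} (hG : G ∈ JJ F w m)
    (hf : f ∈ JJ F w k) : G * f ∈ JJ F w (m + k) := by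
  unfold JJ at *
  obtain ⟨a, ha, p, hp, rfl⟩ := Submodule.mem_sup.1 hG
  obtain ⟨b, hb, q, hq, rfl⟩ := Submodule.mem_sup.1 hf
  have h1 : (a + p) * (b + q) = (a * (b + q) + p * b) + p * q := by ring
  rw [h1]
  apply Submodule.add_mem_sup
  · exact Ideal.add_mem _ (Ideal.mul_mem_right _ _ ha) (Ideal.mul_mem_left _ _ hb)
  · rw [pow_add]
    exact Ideal.mul_mem_mul hp hq

theorem arith {s m c x y z : ℕ} (hm : m ≤ s) (h5 : 2 * c = m * (m - 1))
    (hds : 2 * x = s * (s + 1)) (hdk : 2 * y = (s - m) * (s - m + 1)) (h6 : x ≤ z + y) :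
    m * s ≤ z + c := by
  obtain ⟨k, rfl⟩ := Nat.exists_eq_add_of_le hm
  rw [Nat.add_sub_cancel_left] at hdk
  rcases Nat.eq_zero_or_pos m with rfl | hpos
  · simp
  · obtain ⟨m', rfl⟩ := Nat.exists_eq_succ_of_ne_zero hpos.ne'
    simp only [Nat.succ_eq_add_one, Nat.add_sub_cancel] at h5 hds hdk ⊢
    nlinarith

/-- the local inequality -/
theorem local_ineq (h : S_LOC) (F : R4) (w : Fin (3 + 1) → ℂ) (hw0 : w 0 = 1)
    (hwF : eval w F = 0) (hsm : ∃ i : Fin (3 + 1), i ≠ 0 ∧ eval w (pderiv i F) ≠ 0)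
    (s m : ℕ) (hm : m ≤ s) (G : R4) (hG : G ∈ JJ F w m) :
    FiniteDimensional ℂ (R4 ⧸ (JJ F w s ⊔ Ideal.span {G})) ∧
    m * s ≤ Module.finrank ℂ (R4 ⧸ (JJ F w s ⊔ Ideal.span {G})) + m.choose 2 := by
  obtain ⟨hfs, hds⟩ := h F w hw0 hwF hsm s
  obtain ⟨hfk, hdk⟩ := h F w hw0 hwF hsm (s - m)
  let π : (R4 ⧸ JJ F w s) →ₗ[ℂ] (R4 ⧸ (JJ F w s ⊔ Ideal.span {G})) :=
    (Ideal.Quotient.factorₐ ℂ (le_sup_left : JJ F w s ≤ JJ F w s ⊔ Ideal.span {G})).toLinearMap
  have hπ : Function.Surjective π := by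
    intro x
    obtain ⟨f, rfl⟩ := Ideal.Quotient.mk_surjective x
    exact ⟨Ideal.Quotient.mk _ f, rfl⟩
  have hfin : FiniteDimensional ℂ (R4 ⧸ (JJ F w s ⊔ Ideal.span {G})) :=
    Module.Finite.of_surjective π hπ
  refine ⟨hfin, ?_⟩
  have hle : (JJ F w (s - m) : Submodule R4 R4) ≤
      Submodule.comap (LinearMap.mulLeft R4 G) (JJ F w s) := by
    intro f hf
    show G * f ∈ JJ F w s
    have := JJ_mul hG hf
    rwa [Nat.add_sub_cancel' hm] at this
  let μ : (R4 ⧸ JJ F w (s - m)) →ₗ[ℂ] (R4 ⧸ JJ F w s) :=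
    (Submodule.mapQ (JJ F w (s - m)) (JJ F w s) (LinearMap.mulLeft R4 G) hle).restrictScalars ℂ
  have hker : LinearMap.ker π ≤ LinearMap.range μ := by
    intro x hx
    obtain ⟨f, rfl⟩ := Ideal.Quotient.mk_surjective x
    rw [LinearMap.mem_ker] at hx
    have hx' : (Ideal.Quotient.mk (JJ F w s ⊔ Ideal.span {G})) f = 0 := hx
    rw [Ideal.Quotient.eq_zero_iff_mem] at hx'
    obtain ⟨j, hj, g, hg, hjg⟩ := Submodule.mem_sup.1 hx'
    obtain ⟨c, hc⟩ := Ideal.mem_span_singleton'.1 hg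
    refine ⟨Ideal.Quotient.mk _ c, ?_⟩
    show Ideal.Quotient.mk (JJ F w s) (G * c) = Ideal.Quotient.mk (JJ F w s) f
    rw [Ideal.Quotient.eq]
    have : G * c - f = -j := by rw [← hjg, ← hc]; ring
    rw [this]
    exact neg_mem hj
  have h1 := LinearMap.finrank_range_add_finrank_ker π
  have h2 : Module.finrank ℂ (LinearMap.range π)
      = Module.finrank ℂ (R4 ⧸ (JJ F w s ⊔ Ideal.span {G})) := by
    rw [LinearMap.range_eq_top.mpr hπ, finrank_top]
  have h3 : Module.finrank ℂ (LinearMap.ker π) ≤ Module.finrank ℂ (LinearMap.range μ) :=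
    Submodule.finrank_mono hker
  have h4 : Module.finrank ℂ (LinearMap.range μ) ≤ Module.finrank ℂ (R4 ⧸ JJ F w (s - m)) :=
    LinearMap.finrank_range_le μ
  have h5 : 2 * m.choose 2 = m * (m - 1) := by
    rw [Nat.choose_two_right]
    exact Nat.mul_div_cancel' (Nat.even_mul_pred_self m).two_dvd
  have h6 : Module.finrank ℂ (R4 ⧸ JJ F w s) ≤
      Module.finrank ℂ (R4 ⧸ (JJ F w s ⊔ Ideal.span {G}))
        + Module.finrank ℂ (R4 ⧸ JJ F w (s - m)) := by omega
  exact arith hm h5 hds hdk h6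

theorem t_INEQ (h : S_LOC) : S_INEQ := by
  classical
  intro F n E s e w m G hprime hw0 hwF hsm hSep hms heE hGhom hGF hG
  set I : Ideal R4 := Ideal.span {F} with hI
  let K : Fin n → Ideal R4 := fun q => JJ F (w q) s ⊔ Ideal.span {G}
  have hIJ : ∀ q, I ≤ JJ F (w q) s := fun q => by
    unfold JJ; exact le_sup_left.trans le_sup_left
  have hIK : ∀ q, I ≤ K q := fun q => (hIJ q).trans le_sup_left
  have hloc := fun q => local_ineq h F (w q) (hw0 q) (hwF q) (hsm q) s (m q) (hms q) G (hG q)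
  have hfinK : ∀ q, FiniteDimensional ℂ (R4 ⧸ K q) := fun q => (hloc q).1
  let mk : R4 →ₗ[ℂ] (R4 ⧸ I) := (Ideal.Quotient.mkₐ ℂ I).toLinearMap
  let V : ℕ → Submodule ℂ (R4 ⧸ I) := fun t => (homogeneousSubmodule (Fin (3 + 1)) ℂ t).map mk
  have hVfin : ∀ t, FiniteDimensional ℂ (V t) := fun t =>
    Module.Finite.iff_fg.mpr ((fg_homog t).map mk)
  have hV : ∀ t, Module.finrank ℂ (V t) = hilb I t := fun t => rfl
  let Ψ : (R4 ⧸ I) →ₗ[ℂ] (∀ q, R4 ⧸ K q) :=
    LinearMap.pi (fun q => (Ideal.Quotient.factorₐ ℂ (hIK q)).toLinearMap)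
  have hΨ : ∀ (f : R4) (q : Fin n), Ψ (mk f) q = Ideal.Quotient.mk (K q) f := fun f q => rfl
  let ψ : V E →ₗ[ℂ] (∀ q, R4 ⧸ K q) := Ψ.domRestrict (V E)
  have hsurj : Function.Surjective ψ := by
    intro x
    have hlift : ∀ q, ∃ f : R4, Ideal.Quotient.mk (K q) f = x q := fun q =>
      Ideal.Quotient.mk_surjective (x q)
    choose f hf using hlift
    have hSep' := fun q => hSep q (f q)
    choose P hP1 hP2 hP3 using hSep'
    refine ⟨⟨mk (∑ q, P q), ⟨∑ q, P q, ?_, rfl⟩⟩, ?_⟩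
    · exact Submodule.sum_mem _ (fun q _ => hP1 q)
    · funext q
      show Ψ (mk (∑ q, P q)) q = x q
      rw [hΨ, map_sum, Finset.sum_eq_single q]
      · rw [← hf q, Ideal.Quotient.eq]
        exact (le_sup_left : JJ F (w q) s ≤ K q) (hP2 q)
      · intro q' _ hq'
        rw [Ideal.Quotient.eq_zero_iff_mem]
        exact (le_sup_left : JJ F (w q) s ≤ K q) (hP3 q' q hq'.symm)
      · intro hq; exact absurd (Finset.mem_univ q) hq
  -- the kernel
  have : IsDomain (R4 ⧸ I) := Ideal.Quotient.isDomain I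
  let U : Submodule ℂ (R4 ⧸ I) := (V (E - e)).map (LinearMap.mulLeft ℂ (mk G))
  have hGne : mk G ≠ 0 := by
    intro h0
    exact hGF (Ideal.Quotient.eq_zero_iff_mem.mp h0)
  have hUrank : Module.finrank ℂ U = hilb I (E - e) := by
    rw [← hV]
    have hinj : Function.Injective (LinearMap.mulLeft ℂ (mk G)) := by
      intro a b hab
      exact mul_left_cancel₀ hGne hab
    exact (Submodule.equivMapOfInjective _ hinj (V (E - e))).finrank_eq.symm
  have hUle : U ≤ (LinearMap.ker ψ).map (V E).subtype := by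
    rintro x ⟨y, ⟨f, hf, rfl⟩, rfl⟩
    have hf' : f.IsHomogeneous (E - e) := hf
    have hGf : (G * f).IsHomogeneous E := by
      have := hGhom.mul hf'
      rwa [Nat.add_sub_cancel' heE] at this
    have hx : (LinearMap.mulLeft ℂ (mk G)) (mk f) = mk (G * f) := by
      show mk G * mk f = mk (G * f)
      exact (map_mul (Ideal.Quotient.mkₐ ℂ I) G f).symm
    rw [hx]
    refine ⟨⟨mk (G * f), ⟨G * f, hGf, rfl⟩⟩, ?_, rfl⟩
    show ψ ⟨mk (G * f), _⟩ = 0
    funext q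
    show Ψ (mk (G * f)) q = 0
    rw [hΨ, Ideal.Quotient.eq_zero_iff_mem]
    exact (le_sup_right : Ideal.span {G} ≤ K q)
      (Ideal.mul_mem_right _ _ (Ideal.mem_span_singleton_self G))
  have hE : FiniteDimensional ℂ (V E) := hVfin E
  have h1 := LinearMap.finrank_range_add_finrank_ker ψ
  have h2 : Module.finrank ℂ (LinearMap.range ψ) = ∑ q, Module.finrank ℂ (R4 ⧸ K q) := by
    rw [LinearMap.range_eq_top.mpr hsurj, finrank_top, Module.finrank_pi_fintype]
  have h3 : hilb I (E - e) ≤ Module.finrank ℂ (LinearMap.ker ψ) := by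
    rw [← hUrank]
    calc Module.finrank ℂ U ≤ Module.finrank ℂ ((LinearMap.ker ψ).map (V E).subtype) :=
          Submodule.finrank_mono hUle
      _ = Module.finrank ℂ (LinearMap.ker ψ) :=
          Submodule.finrank_map_subtype_eq _ _
  have h4 : ∑ q, m q * s ≤ ∑ q, (Module.finrank ℂ (R4 ⧸ K q) + (m q).choose 2) :=
    Finset.sum_le_sum (fun q _ => (hloc q).2)
  rw [Finset.sum_add_distrib] at h4
  rw [h2, hV E] at h1
  omega

end Pool.Agent.TH283.SP

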